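import Pool.Agent.Q62.GL.CopFrob

/-!
# Galois representations attached to automorphic representations: descent along extensions of coprime degrees

Let `K` be a number field (`K = ℚ` in Q1), let `π` be an automorphic representation of `GL_n` over `K`, and let `S` be the
finite set of the primes `v` at which `π` is ramified or which divide `ℓ`. For `v ∉ S` let `a v` be a representative of the
Satake class of `π_v` in `GL_n(k)`, `k = ℚ̄_ℓ` (any Hausdorff topological field is allowed).

Let `E_i` be intermediate fields of a finite Galois extension `L` of `K` **whose degrees over `K` have no common prime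
divisor** (for example two fields of coprime degrees; nothing else is assumed: the conjugates of the groups
`Gal(L/E_i)` need not cover `Gal(L/K)`, so the fields `E_i` need not see all the primes of `K` in degree one). Then:

1. There is a representation `r` of `Gal(K̄/K)`, absolutely irreducible over `L`, which corresponds to `π` through the `E_i`
   (`CorrespondsThrough`: `r` is unramified outside `S`, and `r (Frob_v) ^ m` is in the class `(a v) ^ m` whenever `m` is a
   multiple of the residue degree of a place over `v` of one of the `E_i`) **if and only if** the base changes of `π` to all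
   the `E_i` have Galois representations and the base change to `L` has an absolutely irreducible one.
2. `r` is unique up to equivalence, and its restriction to `E_i` is the Galois representation of the
   base change of `π` to `E_i`.
3. At a prime `v ∉ S` for which some `E_i` has a place of degree one over `v`, `r` corresponds to `π_v` via Satake. If no two
   different eigenvalues of the Satake class `a v` have the same `[L : K]`-th power (the quotients of two different
   eigenvalues are not roots of unity of exponent `[L : K]`), then `r (Frob_v)` and `a v` have the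
   same characteristic polynomial, whatever the splitting of `v` in the fields `E_i`.
-/

set_option autoImplicit false

namespace Pool.Agent.Results.MP_ef641d_nt.CoprimeDescent

open Matrix NumberField IsDedekindDomain Topology
open Pool.Agent.W401.Cheb (GK IsFrob IsInert)
open Pool.Agent.Q62.GL

theorem result (K : Type) [Field K] [NumberField K]
    (k : Type) [Field k] [TopologicalSpace k] [IsTopologicalRing k] [T2Space k] (n : ℕ)
    (S : Set (HeightOneSpectrum (𝓞 K))) (hS : S.Finite)
    (a : HeightOneSpectrum (𝓞 K) → GL (Fin n) k)
    -- a finite Galois extension `L` of `K`, and intermediate fields without a common prime divisor of the degrees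
    (N : Subgroup (GK K)) [N.Normal] (hN : IsOpen (N : Set (GK K)))
    (ι : Type) (H : ι → Subgroup (GK K)) (hle : ∀ i, N ≤ H i)
    (hq : ∀ q : ℕ, q.Prime → ∃ i, ¬ q ∣ (H i).index) :
    -- 1. existence
    ((∃ r : GK K →* GL (Fin n) k, CorrespondsThrough S a H r ∧ AbsIrr (r.comp N.subtype)) ↔
      (∀ i, ∃ ρ : H i →* GL (Fin n) k, Attached S a (H i) ρ) ∧
        ∃ ρ : N →* GL (Fin n) k, Attached S a N ρ ∧ AbsIrr ρ) ∧
    (∀ r : GK K →* GL (Fin n) k, CorrespondsThrough S a H r → AbsIrr (r.comp N.subtype) →
      -- 2. uniqueness and restrictions
      (∀ r' : GK K →* GL (Fin n) k, CorrespondsThrough S a H r' →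
        ∃ P : GL (Fin n) k, ∀ x, r' x = P * r x * P⁻¹) ∧
      (∀ i, ∀ ρ : H i →* GL (Fin n) k, Attached S a (H i) ρ →
        ∃ P : GL (Fin n) k, ∀ x : H i, ρ x = P * r x * P⁻¹) ∧
      -- 3. the Satake classes
      ∀ v ∉ S, ∀ σ : GK K, IsFrob v σ →
        ((∃ i g, g * σ * g⁻¹ ∈ H i) → IsConj (r σ)⁻¹ (a v)) ∧
        ((∀ x ∈ eigenvalues (a v), ∀ y ∈ eigenvalues (a v),
            x ^ N.index = y ^ N.index → x = y) →
          ((r σ)⁻¹ : Matrix (Fin n) (Fin n) k).charpoly =
            (a v : Matrix (Fin n) (Fin n) k).charpoly)) := by
  refine ⟨⟨?_, ?_⟩, fun r hr hirr => ⟨fun r' hr' => hr.unique hS N hN hle hq hr' hirr,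
    fun i ρ hρ => hr.restrict hS N hN hle hirr i hρ, fun v hv σ hσ =>
      ⟨hr.degree_one hv hσ, hr.charpoly N hN hle hq hv hσ⟩⟩⟩
  · rintro ⟨r, h1, h2⟩
    obtain ⟨i₀, _⟩ := hq 2 Nat.prime_two
    exact ⟨fun i => ⟨_, h1.attached i (H i) le_rfl⟩, _, h1.attached i₀ N (hle i₀), h2⟩
  · rintro ⟨h1, h2⟩
    choose ρ hρ using h1
    obtain ⟨r, h3, h4, _⟩ := descend_coprime hS H N hN hle hq ρ hρ h2
    exact ⟨r, h3, h4⟩

end Pool.Agent.Results.MP_ef641d_nt.CoprimeDescent
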