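import Pool.Agent.Q92.DS.Rat
import Pool.Agent.Q92.DS.Red

/-!
# A Deligne-Serre theorem for `GL_n`

Let `π` be a cuspidal automorphic representation of `GL_n` over `ℚ`, unramified outside the finite set `S`,
with Satake classes `diag (α p 1, ..., α p n)` for `p ∉ S`. Assume that `π` is of Artin type in the weak
sense that few numbers occur as traces of the Satake classes: the traces lie in a finite set for all primes
outside a set of upper density `c` with `2 c n² < 1`; this holds if the traces are integers in a number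
field whose conjugates are bounded in mean square (Rankin-Selberg for the conjugates of `π`).

For such `π` the following are equivalent: (1) there is a complex representation of the Galois group of `ℚ`
with open kernel which corresponds to `π` at all `p ∉ S`; (2) the conjecture of Langlands and Clozel holds
for `π` and all primes `ℓ`; (3) it holds for `π` and two primes `ℓ`; (4) the Satake parameters are algebraic
integers, and for infinitely many `ℓ` there is a semisimple representation modulo a place above `ℓ`;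
(5) the Satake parameters are algebraic integers, and there are such representations for almost all `ℓ`.
-/

set_option autoImplicit false
set_option linter.all false

namespace Pool.Agent.Results.MP_ef641d_nt.DeligneSerre

open Polynomial Filter NumberField Pool.Agent.Y800 Pool.Agent.Q92.DS

variable {n : ℕ}

/-- There is a complex representation with open kernel which corresponds to the Satake classes with the
eigenvalues `α p i`, for all primes `p ∉ S`. -/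
def HasComplex (S : Finset ℕ) (α : ℕ → Fin n → ℂ) : Prop :=
  ∃ R : GQ →* GL (Fin n) ℂ, IsOpen (R.ker : Set GQ) ∧
    ∀ p : ℕ, p.Prime → p ∉ S → Corresponds R p (α p)

/-- There is a continuous semisimple `ℓ`-adic representation which corresponds to the Satake classes with the
eigenvalues `α p i`, for all primes `p ≠ ℓ`, `p ∉ S`; the fields of coefficients are compared by `ι`. -/
def HasAdic (S : Finset ℕ) (α : ℕ → Fin n → ℂ) (ℓ : ℕ) [Fact ℓ.Prime] (ι : PadicAlgCl ℓ ≃+* ℂ) : Prop :=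
  ∃ ρ : GQ →* GL (Fin n) (PadicAlgCl ℓ), Continuous ρ ∧ IsSemisimple ρ ∧
    ∀ p : ℕ, p.Prime → p ≠ ℓ → p ∉ S → Corresponds ρ p (fun i => ι.symm (α p i))

/-- There are a field `k` of characteristic `ℓ`, a homomorphism from the ring of all algebraic integers
to `k` and a semisimple representation over `k` with open kernel which, for all primes `p ≠ ℓ`, `p ∉ S`, is
unramified at `p` and maps the geometric Frobenius elements at `p` to matrices whose characteristic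
polynomial has the roots `a p i` modulo `ℓ`. -/
def HasMod (S : Finset ℕ) (a : ℕ → Fin n → ZBar) (ℓ : ℕ) : Prop :=
  ∃ (k : Type) (_ : Field k) (_ : CharP k ℓ) (φ : ZBar →+* k) (ρ : GQ →* GL (Fin n) k),
    IsOpen (ρ.ker : Set GQ) ∧ IsSemisimple ρ ∧
    ∀ p : ℕ, p.Prime → p ≠ ℓ → p ∉ S → Unramified ρ p ∧
      ∀ P : Ideal ZBar, P.IsMaximal → (p : ZBar) ∈ P → ∀ σ : GQ, IsGeomFrob p P σ →
        (ρ σ : Matrix (Fin n) (Fin n) k).charpoly = ∏ i, (X - C (φ (a p i)))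

/-- The traces of the Satake classes lie in a finite set for all primes outside `S` and a set of upper
density at most `c`, where `2 c n ^ 2 < 1`. -/
def FewTraces (S : Finset ℕ) (α : ℕ → Fin n → ℂ) : Prop :=
  ∃ (T : Finset ℂ) (Z : Set ℕ) (c : ℝ), c * (2 * n ^ 2) < 1 ∧
    (∀ᶠ N : ℕ in atTop, ({p : ℕ | p.Prime ∧ p ≤ N ∧ p ∈ Z}.ncard : ℝ) ≤ c * (Nat.primeCounting N : ℝ)) ∧
    ∀ p : ℕ, p.Prime → p ∉ S → p ∉ Z → ∑ i, α p i ∈ T

/-- The traces of the Satake classes are integers of a number field, and all their conjugates are bounded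
in mean square. -/
def MeanSquare (S : Finset ℕ) (α : ℕ → Fin n → ℂ) : Prop :=
  ∃ (E : Type) (_ : Field E) (_ : NumberField E) (j : E →+* ℂ) (t : ℕ → 𝓞 E) (C : ℝ),
    (∀ p : ℕ, p.Prime → p ∉ S → j (t p) = ∑ i, α p i) ∧
    ∀ᶠ N : ℕ in atTop, ∑ p ∈ (Finset.range (N + 1)).filter (fun p => p.Prime ∧ p ∉ S),
      ∑ τ : E →+* ℂ, ‖τ (t p)‖ ^ 2 ≤ C * (Nat.primeCounting N : ℝ)

/-- **From the mean square to few traces.** -/
theorem few_of_meanSquare (hn : 0 < n) (S : Finset ℕ) (α : ℕ → Fin n → ℂ) (h : MeanSquare S α) :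
    FewTraces S α := by
  classical
  obtain ⟨E, _, _, j, t, C, ht, hC⟩ := h
  set c : ℝ := 1 / (4 * (n : ℝ) ^ 2) with hc
  have hn' : (0 : ℝ) < (n : ℝ) ^ 2 := by positivity
  have hc0 : 0 < c := by positivity
  have hc1 : c * (2 * (n : ℝ) ^ 2) < 1 := by
    rw [hc, div_mul_eq_mul_div, div_lt_one (by positivity)]
    linarith
  set B : ℝ := Real.sqrt (max C 0 / c + 1) with hB
  have hB2 : B ^ 2 = max C 0 / c + 1 := Real.sq_sqrt (by positivity)
  have hfin : {x : 𝓞 E | ∀ τ : E →+* ℂ, ‖τ x‖ ≤ B}.Finite := by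
    have h1 := (Embeddings.finite_of_norm_le E ℂ B).preimage
      (f := fun x : 𝓞 E => (x : E)) (RingOfIntegers.coe_injective.injOn)
    refine h1.subset fun x hx => ?_
    exact ⟨x.2, hx⟩
  refine ⟨Finset.image (fun x : 𝓞 E => j x) hfin.toFinset, {p | p ∉ S ∧ ∃ τ : E →+* ℂ, B < ‖τ (t p)‖}, c, hc1, ?_, ?_⟩
  · filter_upwards [hC] with N hN
    set F := (Finset.range (N + 1)).filter (fun p => p.Prime ∧ p ∉ S) with hF
    set F' := F.filter (fun p => ∃ τ : E →+* ℂ, B < ‖τ (t p)‖) with hF'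
    have h1 : {p : ℕ | p.Prime ∧ p ≤ N ∧ p ∉ S ∧ ∃ τ : E →+* ℂ, B < ‖τ (t p)‖} =
        (F' : Set ℕ) := by
      ext p
      simp only [hF', hF, Finset.coe_filter, Finset.mem_filter, Finset.mem_range, Set.mem_setOf_eq]
      constructor
      · rintro ⟨a, b, c, d⟩
        exact ⟨⟨by omega, a, c⟩, d⟩
      · rintro ⟨⟨a, b, c⟩, d⟩
        exact ⟨b, by omega, c, d⟩
    show (({p : ℕ | p.Prime ∧ p ≤ N ∧ p ∉ S ∧ ∃ τ : E →+* ℂ, B < ‖τ (t p)‖}.ncard : ℕ) : ℝ) ≤ _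
    rw [h1, Set.ncard_coe_finset]
    have h2 : (F'.card : ℝ) * B ^ 2 ≤ ∑ p ∈ F, ∑ τ : E →+* ℂ, ‖τ (t p)‖ ^ 2 := by
      calc (F'.card : ℝ) * B ^ 2 = ∑ p ∈ F', B ^ 2 := by rw [Finset.sum_const, nsmul_eq_mul]
        _ ≤ ∑ p ∈ F', ∑ τ : E →+* ℂ, ‖τ (t p)‖ ^ 2 := by
            refine Finset.sum_le_sum fun p hp => ?_
            obtain ⟨τ, hτ⟩ := (Finset.mem_filter.1 hp).2
            refine le_trans ?_ (Finset.single_le_sum (f := fun τ : E →+* ℂ => ‖τ (t p)‖ ^ 2)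
              (fun _ _ => by positivity) (Finset.mem_univ τ))
            exact pow_le_pow_left₀ (Real.sqrt_nonneg _) hτ.le 2
        _ ≤ _ := Finset.sum_le_sum_of_subset_of_nonneg (Finset.filter_subset _ _)
            (fun _ _ _ => Finset.sum_nonneg fun _ _ => by positivity)
    have h3 : (F'.card : ℝ) * B ^ 2 ≤ max C 0 * (Nat.primeCounting N : ℝ) :=
      (h2.trans hN).trans (mul_le_mul_of_nonneg_right (le_max_left _ _) (Nat.cast_nonneg _))
    have h4 : max C 0 ≤ c * B ^ 2 := by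
      rw [hB2, mul_add, mul_div_cancel₀ _ hc0.ne']
      linarith
    have h5 : (F'.card : ℝ) * B ^ 2 ≤ (c * (Nat.primeCounting N : ℝ)) * B ^ 2 := by
      refine h3.trans ?_
      have := mul_le_mul_of_nonneg_right h4 (Nat.cast_nonneg (Nat.primeCounting N) : (0 : ℝ) ≤ _)
      linarith
    have hBpos : 0 < B ^ 2 := by rw [hB2]; positivity
    exact le_of_mul_le_mul_right h5 hBpos
  · intro p hp hpS hpZ
    rw [← ht p hp hpS, Finset.mem_image]
    refine ⟨t p, ?_, rfl⟩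
    rw [Set.Finite.mem_toFinset]
    intro τ
    by_contra hτ
    exact hpZ ⟨hpS, τ, not_le.1 hτ⟩

/-- an abstract isomorphism between the algebraic closure of `ℚ_ℓ` and `ℂ` -/
theorem exists_iso (p : ℕ) [hp : Fact p.Prime] : Nonempty (PadicAlgCl p ≃+* ℂ) := by
  have h1 : Cardinal.mk ℂ = Cardinal.continuum := Cardinal.mk_complex
  have h2 : Cardinal.continuum ≤ Cardinal.mk ℚ_[p] :=
    continuum_le_cardinal_of_nontriviallyNormedField ℚ_[p]
  have h3 : Cardinal.mk ℚ_[p] ≤ Cardinal.continuum := by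
    have h4 : Cardinal.mk ℚ_[p] ≤ Cardinal.mk (CauSeq ℚ (padicNorm p)) :=
      Cardinal.mk_le_of_surjective (f := fun x => (Quotient.mk _ x : ℚ_[p])) (by
        intro y
        exact Quotient.exists_rep y)
    refine h4.trans ?_
    have h5 : Cardinal.mk (CauSeq ℚ (padicNorm p)) ≤ Cardinal.mk (ℕ → ℚ) :=
      Cardinal.mk_le_of_injective (f := fun x => (x : ℕ → ℚ)) (by
        intro x y hxy
        exact Subtype.ext hxy)
    refine h5.trans ?_
    simp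
  have h6 : Cardinal.mk ℚ_[p] = Cardinal.continuum := le_antisymm h3 h2
  have h7 : Cardinal.mk (PadicAlgCl p) = Cardinal.continuum := by
    apply le_antisymm
    · have := Algebra.IsAlgebraic.cardinalMk_le_max ℚ_[p] (PadicAlgCl p)
      rw [h6, max_eq_left Cardinal.aleph0_le_continuum] at this
      exact this
    · rw [← h6]
      exact Cardinal.mk_le_of_injective (algebraMap ℚ_[p] (PadicAlgCl p)).injective
  exact IsAlgClosed.ringEquiv_of_equiv_of_charZero (K := PadicAlgCl p) (L := ℂ)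
    (by rw [h7]; exact Cardinal.aleph0_lt_continuum) (Cardinal.eq.1 (by rw [h1, h7]))

theorem map_prod_X_sub {R S : Type*} [CommRing R] [CommRing S] (f : R →+* S) (a : Fin n → R) :
    (∏ i, (X - C (a i))).map f = ∏ i, (X - C (f (a i))) := by
  rw [Polynomial.map_prod]
  refine Finset.prod_congr rfl fun i _ => ?_
  rw [Polynomial.map_sub, Polynomial.map_X, Polynomial.map_C]

/-- **From infinitely many residue characteristics to the complex representation.** -/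
theorem complex_of_mod (hn : 0 < n) (S : Finset ℕ) (α : ℕ → Fin n → ℂ) (j : AlgebraicClosure ℚ →+* ℂ)
    (h : FewTraces S α) (a : ℕ → Fin n → ZBar)
    (ha : ∀ p : ℕ, p.Prime → p ∉ S → ∀ i, j (a p i) = α p i)
    (hmod : {ℓ : ℕ | ℓ.Prime ∧ HasMod S a ℓ}.Infinite) : HasComplex S α := by
  classical
  obtain ⟨T, Z, c, hc, hZ, hT⟩ := h
  set ψ : ZBar →+* ℂ := j.comp (algebraMap ZBar QBar) with hψ
  have hψinj : Function.Injective ψ := j.injective.comp RingOfIntegers.coe_injective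
  have hn2 : (0 : ℝ) < (n : ℝ) ^ 2 := by positivity
  have hc' : c * (n : ℝ) ^ 2 < 1 := by
    rcases le_or_gt 0 c with h0 | h0
    · nlinarith
    · nlinarith
  set P : ℕ → ZBar[X] := fun p => ∏ i, (X - C (a p i)) with hP
  have hPm : ∀ p, (P p).Monic := fun p => monic_prod_of_monic _ _ fun i _ => monic_X_sub_C _
  have htr : ∀ p, - (P p).coeff (n - 1) = ∑ i, a p i := by
    intro p
    have := Polynomial.prod_X_sub_C_coeff_card_pred (Finset.univ : Finset (Fin n)) (a p)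
      (by rw [Finset.card_univ, Fintype.card_fin]; exact hn)
    rw [Finset.card_univ, Fintype.card_fin] at this
    rw [hP]
    simp only [this, neg_neg]
  have hTf : {x : ZBar | ψ x ∈ T}.Finite := by
    have := (Finset.finite_toSet T).preimage (f := ψ) hψinj.injOn
    exact this
  set L : Set ℕ := {ℓ : ℕ | ℓ.Prime ∧ HasMod S a ℓ} with hL
  have hdata : ∀ l : L, HasMod S a l := fun l => l.2.2
  choose k fld chp φ ρ h1 h2 h3 using hdata
  letI := fld
  haveI := chp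
  obtain ⟨R, hR1, hR2⟩ := of_mod S hTf.toFinset Z c hc' hZ P (fun p _ _ => hPm p)
    (fun p hp hpZ hpS => by
      rw [Set.Finite.mem_toFinset]
      show ψ _ ∈ T
      rw [htr, map_sum]
      have : ∑ i, ψ (a p i) = ∑ i, α p i := Finset.sum_congr rfl fun i _ => ha p hp hpS i
      rw [this]
      exact hT p hp hpS hpZ) hn L hmod k φ ρ h1 (fun l => h2 l)
    (fun l p hp hpl hpS => (h3 l p hp hpl hpS).1)
    (fun l p hp hpl hpS Q hQ hpQ σ hσ => by
      rw [(h3 l p hp hpl hpS).2 Q hQ hpQ σ hσ, hP, map_prod_X_sub]) ψ hψinj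
  refine ⟨R, hR1, fun p hp hpS => ⟨(hR2 p hp hpS).1, fun Q hQ hpQ σ hσ => ?_⟩⟩
  obtain ⟨N, hN, hpow⟩ := exists_pow_mat R (finite_quot R hR1)
  refine conj_diag _ N hN (hpow σ) _ ?_
  rw [(hR2 p hp hpS).2 Q hQ hpQ σ hσ, hP, map_prod_X_sub]
  exact Finset.prod_congr rfl fun i _ => by rw [← ha p hp hpS i]; rfl

/-- **From the complex representation to almost all residue characteristics.** -/
theorem mod_of_complex (S : Finset ℕ) (α : ℕ → Fin n → ℂ) (j : AlgebraicClosure ℚ →+* ℂ)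
    (h : HasComplex S α) : ∃ a : ℕ → Fin n → ZBar,
      (∀ p : ℕ, p.Prime → p ∉ S → ∀ i, j (a p i) = α p i) ∧
      {ℓ : ℕ | ℓ.Prime ∧ ¬ HasMod S a ℓ}.Finite := by
  classical
  obtain ⟨R, hR, hcorr⟩ := h
  set ψ : ZBar →+* ℂ := j.comp (algebraMap ZBar QBar) with hψ
  have hψinj : Function.Injective ψ := j.injective.comp RingOfIntegers.coe_injective
  obtain ⟨N, hN, hpow⟩ := exists_pow_mat R (finite_quot R hR)
  have hroot : ∀ p : ℕ, p.Prime → p ∉ S → ∀ i, ∃ z : ZBar, ψ z = α p i := by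
    intro p hp hpS i
    obtain ⟨P, σ, hP, hpP, hσ⟩ := exists_geom hp
    have h1 := corr_charpoly (hcorr p hp hpS) hP hpP hσ
    have h2 : α p i ∈ (R σ : Matrix (Fin n) (Fin n) ℂ).charpoly.roots := by
      rw [mem_roots (Matrix.charpoly_monic _).ne_zero, IsRoot.def, h1, eval_prod]
      exact Finset.prod_eq_zero (Finset.mem_univ i) (by rw [eval_sub, eval_X, eval_C, sub_self])
    obtain ⟨z, _, hz⟩ := root_lift N hN ψ (α p i) (root_pow _ N (hpow σ) h2)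
    exact ⟨z, hz⟩
  choose! a ha using hroot
  refine ⟨a, fun p hp hpS i => ha p hp hpS i, ?_⟩
  -- the representation over the algebraic numbers
  haveI : Finite (GQ ⧸ R.ker) := finite_quot R hR
  obtain ⟨r, hr1, hr2⟩ := exists_rep (I := ℕ) (k := fun _ => ℂ) (fun _ => ψ)
    (fun d hd => Eventually.of_forall fun _ h0 => hd (hψinj (by rw [h0, map_zero]))) (fun _ => R)
    R.ker hR (Eventually.of_forall fun _ => rfl) (algebraMap ZBar QBar) RingOfIntegers.coe_injective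
  have hro : IsOpen (r.ker : Set GQ) := Subgroup.isOpen_mono hr1 hR
  obtain ⟨m, hm, hred⟩ := reduce r hro
  refine (Set.finite_Iic m).subset ?_
  rintro ℓ ⟨hℓ, hno⟩
  by_contra hℓm
  have hndvd : ¬ ℓ ∣ m := fun hd => hℓm (Nat.le_of_dvd hm hd)
  obtain ⟨k, hk, hch, φ, ρ, h1, h2, h3⟩ := hred ℓ hℓ hndvd
  letI := hk
  apply hno
  refine ⟨k, hk, hch, φ, ρ, Subgroup.isOpen_mono h1 hro, h2, fun p hp hpl hpS => ⟨?_, ?_⟩⟩
  · intro P hP hpP τ hτ
    exact h1 (hr1 ((hcorr p hp hpS).1 P hP hpP τ hτ))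
  · intro P hP hpP σ hσ
    set Q : ZBar[X] := ∏ i, (X - C (a p i)) with hQ
    have e1 : (r σ : Matrix (Fin n) (Fin n) QBar).charpoly = Q.map (algebraMap ZBar QBar) := by
      refine charpoly_of_ev (fun _ : ℕ => ψ) (fun _ => R) (algebraMap ZBar QBar) r hr2 σ Q ?_
      refine Eventually.of_forall fun _ => ?_
      rw [corr_charpoly (hcorr p hp hpS) hP hpP hσ, hQ, map_prod_X_sub]
      exact Finset.prod_congr rfl fun i _ => by rw [ha p hp hpS i]
    have e2 : (ρ σ : Matrix (Fin n) (Fin n) k).charpoly = Q.map φ := by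
      refine charpoly_of_ev (I := ℕ) (k := fun _ => QBar) (fun _ : ℕ => algebraMap ZBar QBar)
        (fun _ => r) φ ρ (fun g q hq => ?_) σ Q (Eventually.of_forall fun _ => e1)
      obtain ⟨_, h0⟩ := hq.exists
      exact h3 g q h0
    rw [e2, hQ, map_prod_X_sub]

/-- **Two primes suffice.** -/
theorem complex_of_two (S : Finset ℕ) (α : ℕ → Fin n → ℂ) (h : FewTraces S α)
    (ℓ₁ ℓ₂ : ℕ) [Fact ℓ₁.Prime] [Fact ℓ₂.Prime] (hne : ℓ₁ ≠ ℓ₂) (ι₁ : PadicAlgCl ℓ₁ ≃+* ℂ)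
    (ι₂ : PadicAlgCl ℓ₂ ≃+* ℂ) (h₁ : HasAdic S α ℓ₁ ι₁) (h₂ : HasAdic S α ℓ₂ ι₂) : HasComplex S α := by
  classical
  rcases Nat.eq_zero_or_pos n with hn | hn
  · subst hn
    refine ⟨1, ?_, fun p _ _ => ⟨fun _ _ _ _ _ => rfl, fun _ _ _ _ _ => ⟨1, Subsingleton.elim _ _⟩⟩⟩
    rw [MonoidHom.ker_one]
    exact isOpen_univ
  obtain ⟨T, Z, c, hc, hZ, hT⟩ := h
  have hn2 : (0 : ℝ) < (n : ℝ) ^ 2 := by positivity
  obtain ⟨c', hcc, hc'⟩ : ∃ c', c < c' ∧ c' * (2 * (n : ℝ) ^ 2) < 1 := by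
    have hn' : (0 : ℝ) < 2 * (n : ℝ) ^ 2 := by positivity
    refine ⟨(c + 1 / (2 * (n : ℝ) ^ 2)) / 2, ?_, ?_⟩
    · have : c < 1 / (2 * (n : ℝ) ^ 2) := by rw [lt_div_iff₀ hn']; exact hc
      linarith
    · have h1 : 1 / (2 * (n : ℝ) ^ 2) * (2 * (n : ℝ) ^ 2) = 1 := by field_simp
      nlinarith
  have hc1 : c' * (n : ℝ) ^ 2 < 1 := by
    rcases le_or_gt 0 c' with h0 | h0
    · nlinarith
    · nlinarith
  obtain ⟨ρ₁, a1, b1, d1⟩ := h₁
  obtain ⟨ρ₂, a2, b2, d2⟩ := h₂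
  have hZ' := cnt_add_finite hcc hZ (insert ℓ₁ (insert ℓ₂ S))
  have hmem : ∀ p : ℕ, p ∉ Z ∪ ((insert ℓ₁ (insert ℓ₂ S) : Finset ℕ) : Set ℕ) →
      p ∉ Z ∧ p ≠ ℓ₁ ∧ p ≠ ℓ₂ ∧ p ∉ S := by
    intro p hp
    rw [Set.mem_union, not_or] at hp
    obtain ⟨h1, h2⟩ := hp
    rw [Finset.mem_coe, Finset.mem_insert, not_or, Finset.mem_insert, not_or] at h2
    exact ⟨h1, h2.1, h2.2.1, h2.2.2⟩
  have ho₁ := to_complex ι₁ α _ T c' hc1 hZ' (fun p hp hpZ => hT p hp (hmem p hpZ).2.2.2 (hmem p hpZ).1)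
    ρ₁ a1 b1 (fun p hp hpZ => d1 p hp (hmem p hpZ).2.1 (hmem p hpZ).2.2.2)
  have ho₂ := to_complex ι₂ α _ T c' hc1 hZ' (fun p hp hpZ => hT p hp (hmem p hpZ).2.2.2 (hmem p hpZ).1)
    ρ₂ a2 b2 (fun p hp hpZ => d2 p hp (hmem p hpZ).2.2.1 (hmem p hpZ).2.2.2)
  set R₁ : GQ →* GL (Fin n) ℂ := (Matrix.GeneralLinearGroup.map (ι₁ : PadicAlgCl ℓ₁ →+* ℂ)).comp ρ₁ with hR₁
  set R₂ : GQ →* GL (Fin n) ℂ := (Matrix.GeneralLinearGroup.map (ι₂ : PadicAlgCl ℓ₂ →+* ℂ)).comp ρ₂ with hR₂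
  have hR₁o : IsOpen (R₁.ker : Set GQ) := by rw [hR₁, ker_map]; exact ho₁
  have hR₂o : IsOpen (R₂.ker : Set GQ) := by rw [hR₂, ker_map]; exact ho₂
  have hc₁ : ∀ p : ℕ, p.Prime → p ≠ ℓ₁ → p ∉ S → Corresponds R₁ p (α p) := by
    intro p hp hpl hpS
    have := corr_map (ι₁ : PadicAlgCl ℓ₁ →+* ℂ) (d1 p hp hpl hpS)
    simpa using this
  have hc₂ : ∀ p : ℕ, p.Prime → p ≠ ℓ₂ → p ∉ S → Corresponds R₂ p (α p) := by
    intro p hp hpl hpS
    have := corr_map (ι₂ : PadicAlgCl ℓ₂ →+* ℂ) (d2 p hp hpl hpS)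
    simpa using this
  have htr := traces_eq R₁ R₂ hR₁o hR₂o _ c' hc' hZ' (fun p hp hpZ Q hQ hpQ σ hσ => by
    obtain ⟨_, hp1, hp2, hpS⟩ := hmem p hpZ
    rw [corr_trace (hc₁ p hp hp1 hpS) hQ hpQ hσ, corr_trace (hc₂ p hp hp2 hpS) hQ hpQ hσ])
  refine ⟨R₁, hR₁o, fun p hp hpS => ?_⟩
  by_cases hpl : p = ℓ₁
  · subst hpl
    exact corr_of_other R₁ R₂ hR₁o htr (hc₂ p hp hne hpS)
  · exact hc₁ p hp hpl hpS

/-- from the complex representation to `ℓ`-adic representations -/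
theorem adic_of_complex (S : Finset ℕ) (α : ℕ → Fin n → ℂ) (h : HasComplex S α) (ℓ : ℕ) [Fact ℓ.Prime]
    (ι : PadicAlgCl ℓ ≃+* ℂ) : HasAdic S α ℓ ι := by
  obtain ⟨R, hR, hcorr⟩ := h
  obtain ⟨h1, h2, _, h4⟩ := from_complex (ι.symm : ℂ →+* PadicAlgCl ℓ) R hR
  exact ⟨_, h1, h2, fun p hp _ hpS => h4 p (α p) (hcorr p hp hpS)⟩

/-- **A Deligne-Serre theorem for `GL_n`.** -/
theorem result (hn : 0 < n) (S : Finset ℕ) (α : ℕ → Fin n → ℂ) (j : AlgebraicClosure ℚ →+* ℂ)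
    (h : FewTraces S α ∨ MeanSquare S α) :
    List.TFAE [
      HasComplex S α,
      ∀ (ℓ : ℕ) [Fact ℓ.Prime] (ι : PadicAlgCl ℓ ≃+* ℂ), HasAdic S α ℓ ι,
      ∃ (ℓ₁ ℓ₂ : ℕ) (_ : Fact ℓ₁.Prime) (_ : Fact ℓ₂.Prime) (ι₁ : PadicAlgCl ℓ₁ ≃+* ℂ)
        (ι₂ : PadicAlgCl ℓ₂ ≃+* ℂ), ℓ₁ ≠ ℓ₂ ∧ HasAdic S α ℓ₁ ι₁ ∧ HasAdic S α ℓ₂ ι₂,
      ∃ a : ℕ → Fin n → ZBar, (∀ p : ℕ, p.Prime → p ∉ S → ∀ i, j (a p i) = α p i) ∧
        {ℓ : ℕ | ℓ.Prime ∧ HasMod S a ℓ}.Infinite,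
      ∃ a : ℕ → Fin n → ZBar, (∀ p : ℕ, p.Prime → p ∉ S → ∀ i, j (a p i) = α p i) ∧
        {ℓ : ℕ | ℓ.Prime ∧ ¬ HasMod S a ℓ}.Finite] := by
  have hfew : FewTraces S α := h.elim id (few_of_meanSquare hn S α)
  tfae_have 1 → 2 := fun h1 ℓ _ ι => adic_of_complex S α h1 ℓ ι
  tfae_have 2 → 3 := by
    intro h2
    haveI : Fact (Nat.Prime 2) := ⟨Nat.prime_two⟩
    haveI : Fact (Nat.Prime 3) := ⟨Nat.prime_three⟩
    obtain ⟨ι₁⟩ := exists_iso 2
    obtain ⟨ι₂⟩ := exists_iso 3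
    exact ⟨2, 3, inferInstance, inferInstance, ι₁, ι₂, by norm_num, h2 2 ι₁, h2 3 ι₂⟩
  tfae_have 3 → 1 := by
    rintro ⟨ℓ₁, ℓ₂, _, _, ι₁, ι₂, hne, h1, h2⟩
    exact complex_of_two S α hfew ℓ₁ ℓ₂ hne ι₁ ι₂ h1 h2
  tfae_have 1 → 5 := mod_of_complex S α j
  tfae_have 5 → 4 := by
    rintro ⟨a, ha, hfin⟩
    refine ⟨a, ha, ?_⟩
    have h1 : {ℓ : ℕ | ℓ.Prime} \ {ℓ : ℕ | ℓ.Prime ∧ ¬ HasMod S a ℓ} ⊆ {ℓ : ℕ | ℓ.Prime ∧ HasMod S a ℓ} := by
      rintro ℓ ⟨h1, h2⟩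
      refine ⟨h1, ?_⟩
      by_contra h3
      exact h2 ⟨h1, h3⟩
    exact (Nat.infinite_setOf_prime.diff hfin).mono h1
  tfae_have 4 → 1 := by
    rintro ⟨a, ha, hinf⟩
    exact complex_of_mod hn S α j hfew a ha hinf
  tfae_finish

end Pool.Agent.Results.MP_ef641d_nt.DeligneSerre
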