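import Pool.Agent.Q62.GL.Main

/-!
# Galois representations attached to automorphic representations: gluing over finite families of fields

Let `K` be a number field (`K = ℚ` in Q1), let `π` be an automorphic representation of `GL_n` over `K`, and let `S` be the
finite set of the primes `v` at which `π` is ramified or which divide `ℓ`. For `v ∉ S` let `a v` be a representative of the
Satake class of `π_v` in `GL_n(k)`, `k = ℚ̄_ℓ` (any Hausdorff topological field is allowed). For a finite extension `E` of
`K` and a prime `w ∣ v` of `E` of residue degree `f` the class of the base change of `π` at `w` is that of `(a v) ^ f`, and a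
representation `ρ` of `Gal(K̄/E)` is attached to it outside `S` if it is continuous, unramified at all `w ∣ v ∉ S` and
maps geometric Frobenius elements at `w` to the class of `(a v) ^ f` (`Attached`; the existence of the base change as
an automorphic representation is not needed). The case `E = K` is the statement of Q1 for `π` (`Corresponds`).

1. Let `E_i` be extensions of `K` contained in the finite Galois extension `L` of `K`, such that one of the
   following two conditions holds (`Covering`):
   * almost every prime of `K` has a prime of degree one in some `E_i` (every element of `Gal(L/K)` is
     conjugate to an element of some `Gal(L/E_i)`), and the degrees `[E_i : K]` have no common prime divisor;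
   * every two elements of `Gal(L/K)` are simultaneously conjugate to elements of some `Gal(L/E_i)`.

   Then `π` has a Galois representation over `K` whose restriction to `L` is absolutely irreducible **if and only
   if** it has Galois representations over all the `E_i`, and over `L` an absolutely irreducible one.
2. Let `L` be a finite Galois extension of `K` such that `Gal(L/K)` is neither cyclic nor a `p`-group which is generated by two
   elements. Then `π` has a Galois representation over `K` whose restriction to `L` is absolutely irreducible **if and
   only if** it has one over each **minimal** extension `E` of `K` in `L`, and over `L` an absolutely irreducible one. For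
   example: the seven quadratic subfields of a triquadratic extension; the fixed fields of the maximal subgroups of
   any finite group which is not of prime power order and not cyclic; a cubic field which is not Galois and its quadratic
   resolvent.
3. An absolutely irreducible representation corresponding to `π` is unique up to equivalence.

The usual patching lemma needs representations over infinitely many extensions.
-/

set_option autoImplicit false

namespace Pool.Agent.Results.MP_ef641d_nt.FiniteGluing

open NumberField IsDedekindDomain Topology
open Pool.Agent.W401.Cheb (GK IsFrob IsInert)
open Pool.Agent.Q62.GL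

theorem result (K : Type) [Field K] [NumberField K]
    (k : Type) [Field k] [TopologicalSpace k] [IsTopologicalRing k] [T2Space k] (n : ℕ)
    (S : Set (HeightOneSpectrum (𝓞 K))) (hS : S.Finite)
    (a : HeightOneSpectrum (𝓞 K) → GL (Fin n) k) :
    (∀ (N : Subgroup (GK K)) [N.Normal], IsOpen (N : Set (GK K)) →
      -- 1. families of intermediate fields
      (∀ (ι : Type) (H : ι → Subgroup (GK K)), (∀ i, N ≤ H i) → Covering H →
        ((∃ r : GK K →* GL (Fin n) k, Corresponds S a r ∧ AbsIrr (r.comp N.subtype)) ↔
          (∀ i, ∃ ρ : H i →* GL (Fin n) k, Attached S a (H i) ρ) ∧
            ∃ ρ : N →* GL (Fin n) k, Attached S a N ρ ∧ AbsIrr ρ)) ∧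
      -- 2. minimal extensions
      (¬ IsCyclic (GK K ⧸ N) →
        (∀ p : ℕ, p.Prime → IsPGroup p (GK K ⧸ N) → ∀ x y : GK K ⧸ N,
          Subgroup.closure {x, y} ≠ ⊤) →
        ((∃ r : GK K →* GL (Fin n) k, Corresponds S a r ∧ AbsIrr (r.comp N.subtype)) ↔
          (∀ M : Subgroup (GK K), IsCoatom M → N ≤ M → ∃ ρ : M →* GL (Fin n) k, Attached S a M ρ) ∧
            ∃ ρ : N →* GL (Fin n) k, Attached S a N ρ ∧ AbsIrr ρ))) ∧
    -- 3. uniqueness
    (∀ r r' : GK K →* GL (Fin n) k, Corresponds S a r → Corresponds S a r' → AbsIrr r →
      ∃ P : GL (Fin n) k, ∀ x, r' x = P * r x * P⁻¹) := by
  refine ⟨fun N _ hN => ⟨fun ι H hle hcov => ?_, fun hcyc hp => ?_⟩, fun r r' h h' hirr => ?_⟩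
  · exact glue_iff hS N hN H hle hcov
  · exact glue_max hS N hN hcyc hp
  · exact unique hS h h' hirr

end Pool.Agent.Results.MP_ef641d_nt.FiniteGluing
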