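import Pool.Agent.Q92.DS.One
import Pool.Agent.Q92.DS.Red

/-!
# One residual representation suffices

Let `π` be a cuspidal automorphic representation of `GL_n` over `ℚ`, unramified outside the finite set `S`,
whose Satake classes `diag (a p 1, ..., a p n)`, `p ∉ S`, have integral algebraic eigenvalues. Suppose that
the coefficients of the Satake polynomials have degree at most `d` over `ℚ` and that all their complex
conjugates are at most `C` (for `C = 2 ^ n` this holds if `π` is of Artin type, tempered together with its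
conjugates, and its field of rationality has degree at most `d`).

There is a constant `B`, which depends only on `n`, `d` and `C`, such that for all such `π` and all primes
`ℓ > B` the conjecture of Langlands and Clozel for `π` and `ℓ` is equivalent to the existence of one
semisimple representation in characteristic `ℓ` which corresponds to `π` modulo a place above `ℓ`; and such
residual representations for two primes `ℓ > B` give the conjecture for `π` and all primes, even a complex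
representation with open kernel which corresponds to `π` at all `p ∉ S`.
-/

set_option autoImplicit false
set_option linter.all false

namespace Pool.Agent.Results.MP_ef641d_nt.OneResidualPrime

open Polynomial Filter NumberField Pool.Agent.Y800 Pool.Agent.Q92.DS

variable {n : ℕ}

/-- There is a complex representation with open kernel which corresponds to the Satake classes with the
eigenvalues `α p i`, for all primes `p ∉ S`. -/
def HasComplex (S : Finset ℕ) (α : ℕ → Fin n → ℂ) : Prop :=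
  ∃ R : GQ →* GL (Fin n) ℂ, IsOpen (R.ker : Set GQ) ∧
    ∀ p : ℕ, p.Prime → p ∉ S → Corresponds R p (α p)

/-- There is a continuous semisimple `ℓ`-adic representation which corresponds to the Satake classes with the
eigenvalues `α p i`, for all primes `p ≠ ℓ`, `p ∉ S`; the fields of coefficients are compared by `ι`. -/
def HasAdic (S : Finset ℕ) (α : ℕ → Fin n → ℂ) (ℓ : ℕ) [Fact ℓ.Prime] (ι : PadicAlgCl ℓ ≃+* ℂ) : Prop :=
  ∃ ρ : GQ →* GL (Fin n) (PadicAlgCl ℓ), Continuous ρ ∧ IsSemisimple ρ ∧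
    ∀ p : ℕ, p.Prime → p ≠ ℓ → p ∉ S → Corresponds ρ p (fun i => ι.symm (α p i))

/-- There are a field `k` of characteristic `ℓ`, a homomorphism from the ring of all algebraic integers
to `k` and a semisimple representation over `k` with open kernel which, for all primes `p ≠ ℓ`, `p ∉ S`, is
unramified at `p` and maps the geometric Frobenius elements at `p` to matrices whose characteristic
polynomial has the roots `a p i` modulo `ℓ`. -/
def HasMod (S : Finset ℕ) (a : ℕ → Fin n → ZBar) (ℓ : ℕ) : Prop :=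
  ∃ (k : Type) (_ : Field k) (_ : CharP k ℓ) (φ : ZBar →+* k) (ρ : GQ →* GL (Fin n) k),
    IsOpen (ρ.ker : Set GQ) ∧ IsSemisimple ρ ∧
    ∀ p : ℕ, p.Prime → p ≠ ℓ → p ∉ S → Unramified ρ p ∧
      ∀ P : Ideal ZBar, P.IsMaximal → (p : ZBar) ∈ P → ∀ σ : GQ, IsGeomFrob p P σ →
        (ρ σ : Matrix (Fin n) (Fin n) k).charpoly = ∏ i, (X - C (φ (a p i)))

/-- For all primes `p ∉ S` the coefficients of the polynomial `∏ (X - a p i)` have degree at most `d` over
`ℚ`, and all their complex conjugates have absolute value at most `c`. -/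
def IsBounded (d : ℕ) (c : ℝ) (S : Finset ℕ) (a : ℕ → Fin n → ZBar) : Prop :=
  ∀ p : ℕ, p.Prime → p ∉ S → ∀ m : ℕ,
    (minpoly ℚ (((∏ i, (X - C (a p i)) : ZBar[X]).coeff m : ZBar) : AlgebraicClosure ℚ)).natDegree ≤ d ∧
    ∀ τ : AlgebraicClosure ℚ →+* ℂ, ‖τ ((∏ i, (X - C (a p i)) : ZBar[X]).coeff m : ZBar)‖ ≤ c

/-- **Northcott**: finitely many algebraic integers of bounded degree have bounded conjugates. -/
theorem finite_house (d : ℕ) (B : ℝ) : {x : ZBar | (minpoly ℚ (x : AlgebraicClosure ℚ)).natDegree ≤ d ∧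
    ∀ τ : AlgebraicClosure ℚ →+* ℂ, ‖τ x‖ ≤ B}.Finite := by
  classical
  let C' := Nat.ceil (max B 1 ^ d * d.choose (d / 2))
  have := bUnion_roots_finite (algebraMap ℤ (AlgebraicClosure ℚ)) d (Set.finite_Icc (-C' : ℤ) C')
  have h2 := this.preimage (f := fun x : ZBar => (x : AlgebraicClosure ℚ)) (RingOfIntegers.coe_injective.injOn)
  refine h2.subset fun x hx => ?_
  obtain ⟨hx1, hx2⟩ := hx
  have hxi : IsIntegral ℤ (x : AlgebraicClosure ℚ) := x.2
  have h_map := minpoly.isIntegrallyClosed_eq_field_fractions' ℚ hxi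
  rw [Set.mem_preimage, Set.mem_iUnion]
  refine ⟨minpoly ℤ (x : AlgebraicClosure ℚ), ?_⟩
  rw [Set.mem_iUnion]
  refine ⟨⟨?_, fun i => ?_⟩, mem_rootSet.2 ⟨minpoly.ne_zero hxi, minpoly.aeval ℤ _⟩⟩
  · rw [← (minpoly.monic hxi).natDegree_map (algebraMap ℤ ℚ), ← h_map]
    exact hx1
  · rw [Set.mem_Icc, ← abs_le, ← @Int.cast_le ℝ]
    haveI : Algebra.IsAlgebraic ℚ (AlgebraicClosure ℚ) := AlgebraicClosure.isAlgebraic ℚ
    have hq : IsIntegral ℚ (x : AlgebraicClosure ℚ) := (Algebra.IsAlgebraic.isAlgebraic _).isIntegral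
    have h1 := coeff_bdd_of_roots_le (B := B) (d := d) (algebraMap ℚ ℂ) (minpoly.monic hq)
      (IsAlgClosed.splits _) hx1 (by
        intro z hz
        have h3 := Algebra.IsAlgebraic.range_eval_eq_rootSet_minpoly (F := ℚ) ℂ (x : AlgebraicClosure ℚ)
        have h4 : z ∈ (minpoly ℚ (x : AlgebraicClosure ℚ)).rootSet ℂ := by
          rw [rootSet, Finset.mem_coe, Multiset.mem_toFinset]
          exact hz
        rw [← h3] at h4
        obtain ⟨τ, rfl⟩ := h4
        exact hx2 (τ : AlgebraicClosure ℚ →+* ℂ)) i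
    have h5 : ‖(map (algebraMap ℚ ℂ) (minpoly ℚ (x : AlgebraicClosure ℚ))).coeff i‖ =
        ((|(minpoly ℤ (x : AlgebraicClosure ℚ)).coeff i| : ℤ) : ℝ) := by
      rw [h_map, coeff_map, coeff_map, eq_intCast, map_intCast, Complex.norm_intCast, Int.cast_abs]
    rw [h5] at h1
    refine h1.trans ?_
    exact_mod_cast Nat.le_ceil _

/-- the finite set of all polynomials in question -/
theorem exists_polys (d : ℕ) (c : ℝ) : ∃ PP : Finset ZBar[X], ∀ (S : Finset ℕ) (a : ℕ → Fin n → ZBar),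
    IsBounded d c S a → ∀ p : ℕ, p.Prime → p ∉ S → (∏ i, (X - C (a p i)) : ZBar[X]) ∈ PP := by
  classical
  set U := (finite_house d c).toFinset with hU
  refine ⟨(Fintype.piFinset fun _ : Fin (n + 1) => U).image fun f => ∑ i : Fin (n + 1), monomial (i : ℕ) (f i), ?_⟩
  intro S a h p hp hpS
  rw [Finset.mem_image]
  refine ⟨fun i => (∏ i, (X - C (a p i)) : ZBar[X]).coeff i, ?_, ?_⟩
  · rw [Fintype.mem_piFinset]
    intro i
    rw [hU, Set.Finite.mem_toFinset]
    exact h p hp hpS i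
  · have hdeg : (∏ i, (X - C (a p i)) : ZBar[X]).natDegree = n := by
      rw [natDegree_prod_of_monic _ _ fun i _ => monic_X_sub_C _]
      simp
    have := (∏ i, (X - C (a p i)) : ZBar[X]).as_sum_range' (n + 1) (by rw [hdeg]; omega)
    rw [Finset.sum_range] at this
    exact this.symm

/-- an abstract isomorphism between the algebraic closure of `ℚ_ℓ` and `ℂ` -/
theorem exists_iso (p : ℕ) [hp : Fact p.Prime] : Nonempty (PadicAlgCl p ≃+* ℂ) := by
  have h1 : Cardinal.mk ℂ = Cardinal.continuum := Cardinal.mk_complex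
  have h2 : Cardinal.continuum ≤ Cardinal.mk ℚ_[p] :=
    continuum_le_cardinal_of_nontriviallyNormedField ℚ_[p]
  have h3 : Cardinal.mk ℚ_[p] ≤ Cardinal.continuum := by
    have h4 : Cardinal.mk ℚ_[p] ≤ Cardinal.mk (CauSeq ℚ (padicNorm p)) :=
      Cardinal.mk_le_of_surjective (f := fun x => (Quotient.mk _ x : ℚ_[p])) (by
        intro y
        exact Quotient.exists_rep y)
    refine h4.trans ?_
    have h5 : Cardinal.mk (CauSeq ℚ (padicNorm p)) ≤ Cardinal.mk (ℕ → ℚ) :=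
      Cardinal.mk_le_of_injective (f := fun x => (x : ℕ → ℚ)) (by
        intro x y hxy
        exact Subtype.ext hxy)
    refine h5.trans ?_
    simp
  have h6 : Cardinal.mk ℚ_[p] = Cardinal.continuum := le_antisymm h3 h2
  have h7 : Cardinal.mk (PadicAlgCl p) = Cardinal.continuum := by
    apply le_antisymm
    · have := Algebra.IsAlgebraic.cardinalMk_le_max ℚ_[p] (PadicAlgCl p)
      rw [h6, max_eq_left Cardinal.aleph0_le_continuum] at this
      exact this
    · rw [← h6]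
      exact Cardinal.mk_le_of_injective (algebraMap ℚ_[p] (PadicAlgCl p)).injective
  exact IsAlgClosed.ringEquiv_of_equiv_of_charZero (K := PadicAlgCl p) (L := ℂ)
    (by rw [h7]; exact Cardinal.aleph0_lt_continuum) (Cardinal.eq.1 (by rw [h1, h7]))

theorem map_prod_X_sub {R S : Type*} [CommRing R] [CommRing S] (f : R →+* S) (a : Fin n → R) :
    (∏ i, (X - C (a i))).map f = ∏ i, (X - C (f (a i))) := by
  rw [Polynomial.map_prod]
  refine Finset.prod_congr rfl fun i _ => ?_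
  rw [Polynomial.map_sub, Polynomial.map_X, Polynomial.map_C]

/-- from the complex representation to `ℓ`-adic representations -/
theorem adic_of_complex (S : Finset ℕ) (α : ℕ → Fin n → ℂ) (ℓ : ℕ) [Fact ℓ.Prime]
    (h : HasComplex (insert ℓ S) α) (ι : PadicAlgCl ℓ ≃+* ℂ) : HasAdic S α ℓ ι := by
  obtain ⟨R, hR, hcorr⟩ := h
  obtain ⟨h1, h2, _, h4⟩ := from_complex (ι.symm : ℂ →+* PadicAlgCl ℓ) R hR
  refine ⟨_, h1, h2, fun p hp hpl hpS => h4 p (α p) (hcorr p hp ?_)⟩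
  rw [Finset.mem_insert, not_or]
  exact ⟨hpl, hpS⟩

theorem complex_insert (S : Finset ℕ) (α : ℕ → Fin n → ℂ) (ℓ : ℕ) (h : HasComplex S α) :
    HasComplex (insert ℓ S) α := by
  obtain ⟨R, hR, hcorr⟩ := h
  exact ⟨R, hR, fun p hp hpS => hcorr p hp fun h => hpS (Finset.mem_insert_of_mem h)⟩

/-- density of a finite set of primes -/
theorem cnt_fin (S : Finset ℕ) {c : ℝ} (hc : 0 < c) :
    ∀ᶠ N : ℕ in atTop, (cnt (∅ ∪ (S : Set ℕ)) N : ℝ) ≤ c * (Nat.primeCounting N : ℝ) := by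
  refine cnt_add_finite hc ?_ S
  filter_upwards with N
  have : cnt ∅ N = 0 := by
    unfold cnt
    simp
  rw [this]; simp

/-- from an `ℓ`-adic representation to the complex representation away from `ℓ` -/
theorem complex_of_adic (hn : 0 < n) (S : Finset ℕ) (PP : Finset ZBar[X]) (j : AlgebraicClosure ℚ →+* ℂ)
    (a : ℕ → Fin n → ZBar) (hP : ∀ p : ℕ, p.Prime → p ∉ S → (∏ i, (X - C (a p i)) : ZBar[X]) ∈ PP)
    (ℓ : ℕ) [Fact ℓ.Prime] (ι : PadicAlgCl ℓ ≃+* ℂ) (h : HasAdic S (fun p i => j (a p i)) ℓ ι) :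
    HasComplex (insert ℓ S) (fun p i => j (a p i)) := by
  classical
  obtain ⟨ρ, a1, b1, d1⟩ := h
  have hn2 : (0 : ℝ) < (n : ℝ) ^ 2 := by positivity
  set c' : ℝ := 1 / (2 * (n : ℝ) ^ 2) with hc'
  have hc0 : 0 < c' := by positivity
  have hcn : c' * (n : ℝ) ^ 2 = 1 / 2 := by
    rw [hc']; field_simp
  have hmem : ∀ p : ℕ, p ∉ (∅ ∪ ((insert ℓ S : Finset ℕ) : Set ℕ)) → p ≠ ℓ ∧ p ∉ S := by
    intro p hp
    rw [Set.empty_union, Finset.mem_coe, Finset.mem_insert, not_or] at hp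
    exact hp
  set T : Finset ℂ := PP.image fun Q => j ((- Q.coeff (n - 1) : ZBar) : AlgebraicClosure ℚ) with hT
  have htr : ∀ p : ℕ, p.Prime → p ∉ S → ∑ i, j (a p i) ∈ T := by
    intro p hp hpS
    rw [hT, Finset.mem_image]
    refine ⟨_, hP p hp hpS, ?_⟩
    have := Polynomial.prod_X_sub_C_coeff_card_pred (Finset.univ : Finset (Fin n)) (a p)
      (by rw [Finset.card_univ, Fintype.card_fin]; exact hn)
    rw [Finset.card_univ, Fintype.card_fin] at this
    rw [this, neg_neg]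
    have e : ((∑ i, a p i : ZBar) : AlgebraicClosure ℚ) = ∑ i, ((a p i : ZBar) : AlgebraicClosure ℚ) :=
      map_sum (algebraMap ZBar (AlgebraicClosure ℚ)) _ _
    rw [e, map_sum]
  have ho := to_complex ι (fun p i => j (a p i)) _ T c' (by rw [hcn]; norm_num) (cnt_fin (insert ℓ S) hc0)
    (fun p hp hpZ => htr p hp (hmem p hpZ).2) ρ a1 b1
    (fun p hp hpZ => d1 p hp (hmem p hpZ).1 (hmem p hpZ).2)
  refine ⟨(Matrix.GeneralLinearGroup.map (ι : PadicAlgCl ℓ →+* ℂ)).comp ρ, by rw [ker_map]; exact ho, ?_⟩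
  intro p hp hpS
  rw [Finset.mem_insert, not_or] at hpS
  have := corr_map (ι : PadicAlgCl ℓ →+* ℂ) (d1 p hp hpS.1 hpS.2)
  simpa using this

/-- complex representations away from two primes -/
theorem complex_of_two (hn : 0 < n) (S : Finset ℕ) (α : ℕ → Fin n → ℂ) (ℓ₁ ℓ₂ : ℕ) (hne : ℓ₁ ≠ ℓ₂)
    (h₁ : HasComplex (insert ℓ₁ S) α) (h₂ : HasComplex (insert ℓ₂ S) α) : HasComplex S α := by
  classical
  obtain ⟨R₁, hR₁, hc₁⟩ := h₁
  obtain ⟨R₂, hR₂, hc₂⟩ := h₂
  have hn2 : (0 : ℝ) < (n : ℝ) ^ 2 := by positivity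
  set c' : ℝ := 1 / (4 * (n : ℝ) ^ 2) with hc'
  have hc0 : 0 < c' := by positivity
  have hcn : c' * (2 * (n : ℝ) ^ 2) = 1 / 2 := by
    rw [hc']; field_simp; norm_num
  have htr := traces_eq R₁ R₂ hR₁ hR₂ _ c' (by rw [hcn]; norm_num)
    (cnt_fin (insert ℓ₁ (insert ℓ₂ S)) hc0) (fun p hp hpZ Q hQ hpQ σ hσ => by
    rw [Set.empty_union, Finset.mem_coe, Finset.mem_insert, Finset.mem_insert, not_or, not_or] at hpZ
    rw [corr_trace (hc₁ p hp (by rw [Finset.mem_insert, not_or]; exact ⟨hpZ.1, hpZ.2.2⟩)) hQ hpQ hσ,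
      corr_trace (hc₂ p hp (by rw [Finset.mem_insert, not_or]; exact ⟨hpZ.2.1, hpZ.2.2⟩)) hQ hpQ hσ])
  refine ⟨R₁, hR₁, fun p hp hpS => ?_⟩
  by_cases hpl : p = ℓ₁
  · subst hpl
    refine corr_of_other R₁ R₂ hR₁ htr (hc₂ p hp ?_)
    rw [Finset.mem_insert, not_or]
    exact ⟨hne, hpS⟩
  · refine hc₁ p hp ?_
    rw [Finset.mem_insert, not_or]
    exact ⟨hpl, hpS⟩

/-- **One residual representation suffices.** -/
theorem result (hn : 0 < n) (d : ℕ) (c : ℝ) : ∃ B : ℕ, ∀ (j : AlgebraicClosure ℚ →+* ℂ) (S : Finset ℕ)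
    (a : ℕ → Fin n → ZBar), IsBounded d c S a →
      (∀ (ℓ : ℕ) [Fact ℓ.Prime] (ι : PadicAlgCl ℓ ≃+* ℂ), B < ℓ →
        (HasAdic S (fun p i => j (a p i)) ℓ ι ↔ HasMod S a ℓ)) ∧
      List.TFAE [
        HasComplex S (fun p i => j (a p i)),
        ∀ (ℓ : ℕ) [Fact ℓ.Prime] (ι : PadicAlgCl ℓ ≃+* ℂ), HasAdic S (fun p i => j (a p i)) ℓ ι,
        ∃ ℓ₁ ℓ₂ : ℕ, ℓ₁.Prime ∧ ℓ₂.Prime ∧ B < ℓ₁ ∧ ℓ₁ < ℓ₂ ∧ HasMod S a ℓ₁ ∧ HasMod S a ℓ₂,
        ∀ ℓ : ℕ, ℓ.Prime → B < ℓ → HasMod S a ℓ] := by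
  classical
  obtain ⟨PP, hPP⟩ := exists_polys (n := n) d c
  obtain ⟨B₁, hB₁⟩ := of_one hn PP
  obtain ⟨B₂, hB₂0, hB₂⟩ := to_one hn PP
  refine ⟨max B₁ B₂, ?_⟩
  intro j S a ha
  have hP := hPP S a ha
  set ψ : ZBar →+* ℂ := j.comp (algebraMap ZBar QBar) with hψ
  have hψinj : Function.Injective ψ := j.injective.comp RingOfIntegers.coe_injective
  have hins : ∀ ℓ p : ℕ, p ∉ insert ℓ S ↔ p ≠ ℓ ∧ p ∉ S := by
    intro ℓ p
    rw [Finset.mem_insert, not_or]
  -- from one residual representation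
  have key1 : ∀ ℓ : ℕ, ℓ.Prime → max B₁ B₂ < ℓ → HasMod S a ℓ →
      HasComplex (insert ℓ S) (fun p i => j (a p i)) := by
    rintro ℓ hℓ hB ⟨k, _, _, φ, ρ, h1, h2, h3⟩
    obtain ⟨r, hr1, hr2⟩ := hB₁ (insert ℓ S) (fun p => ∏ i, (X - C (a p i)))
      (fun p hp hpS => hP p hp ((hins ℓ p).1 hpS).2) ℓ (lt_of_le_of_lt (le_max_left _ _) hB) k φ ρ h1 h2
      (fun p hp hpS Q hQ hpQ σ hσ => by
        rw [(h3 p hp ((hins ℓ p).1 hpS).1 ((hins ℓ p).1 hpS).2).2 Q hQ hpQ σ hσ, map_prod_X_sub])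
      ψ hψinj
    have hro : IsOpen (r.ker : Set GQ) := Subgroup.isOpen_mono hr1 h1
    refine ⟨r, hro, fun p hp hpS => ⟨?_, ?_⟩⟩
    · intro P hP hpP τ hτ
      exact hr1 ((h3 p hp ((hins ℓ p).1 hpS).1 ((hins ℓ p).1 hpS).2).1 P hP hpP τ hτ)
    · intro Q hQ hpQ σ hσ
      obtain ⟨N, hN, hpow⟩ := exists_pow_mat r (finite_quot r hro)
      refine conj_diag _ N hN (hpow σ) _ ?_
      rw [hr2 p hp hpS Q hQ hpQ σ hσ, map_prod_X_sub]
      rfl
  -- to residual representations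
  have key2 : ∀ ℓ : ℕ, ℓ.Prime → max B₁ B₂ < ℓ → HasComplex (insert ℓ S) (fun p i => j (a p i)) →
      HasMod S a ℓ := by
    rintro ℓ hℓ hB ⟨R, hR, hcorr⟩
    obtain ⟨k, hk, hch, φ, -⟩ := exists_residue ℓ hℓ
    letI := hk
    haveI := hch
    have hφ : φ (B₂ : ZBar) ≠ 0 := by
      intro h0
      rw [map_natCast, CharP.cast_eq_zero_iff k ℓ] at h0
      have h1 := Nat.le_of_dvd hB₂0 h0
      have h2 := le_max_right B₁ B₂
      omega
    obtain ⟨ρ, h1, h2, h3⟩ := hB₂ (insert ℓ S) (fun p => ∏ i, (X - C (a p i)))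
      (fun p hp hpS => hP p hp ((hins ℓ p).1 hpS).2) ψ hψinj R hR
      (fun p hp hpS Q hQ hpQ σ hσ => by
        rw [corr_charpoly (hcorr p hp hpS) hQ hpQ hσ, map_prod_X_sub]
        rfl) k φ hφ
    refine ⟨k, hk, hch, φ, ρ, Subgroup.isOpen_mono h1 hR, h2, fun p hp hpl hpS => ⟨?_, ?_⟩⟩
    · intro P hP hpP τ hτ
      exact h1 ((hcorr p hp ((hins ℓ p).2 ⟨hpl, hpS⟩)).1 P hP hpP τ hτ)
    · intro P hP hpP σ hσ
      rw [h3 p hp ((hins ℓ p).2 ⟨hpl, hpS⟩) P hP hpP σ hσ, map_prod_X_sub]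
  refine ⟨?_, ?_⟩
  · intro ℓ _ ι hB
    have hℓ : ℓ.Prime := Fact.out
    exact ⟨fun h => key2 ℓ hℓ hB (complex_of_adic hn S PP j a hP ℓ ι h),
      fun h => adic_of_complex S _ ℓ (key1 ℓ hℓ hB h) ι⟩
  · tfae_have 1 → 2 := fun h ℓ _ ι => adic_of_complex S _ ℓ (complex_insert S _ ℓ h) ι
    tfae_have 2 → 1 := by
      intro h
      haveI : Fact (Nat.Prime 2) := ⟨Nat.prime_two⟩
      haveI : Fact (Nat.Prime 3) := ⟨Nat.prime_three⟩
      obtain ⟨ι₁⟩ := exists_iso 2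
      obtain ⟨ι₂⟩ := exists_iso 3
      exact complex_of_two hn S _ 2 3 (by norm_num) (complex_of_adic hn S PP j a hP 2 ι₁ (h 2 ι₁))
        (complex_of_adic hn S PP j a hP 3 ι₂ (h 3 ι₂))
    tfae_have 1 → 4 := fun h ℓ hℓ hB => key2 ℓ hℓ hB (complex_insert S _ ℓ h)
    tfae_have 4 → 3 := by
      intro h
      obtain ⟨ℓ₁, h1, h2⟩ := Nat.exists_infinite_primes (max B₁ B₂ + 1)
      obtain ⟨ℓ₂, h3, h4⟩ := Nat.exists_infinite_primes (ℓ₁ + 1)
      exact ⟨ℓ₁, ℓ₂, h2, h4, by omega, by omega, h ℓ₁ h2 (by omega), h ℓ₂ h4 (by omega)⟩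
    tfae_have 3 → 1 := by
      rintro ⟨ℓ₁, ℓ₂, h1, h2, h3, h4, h5, h6⟩
      exact complex_of_two hn S _ ℓ₁ ℓ₂ (by omega) (key1 ℓ₁ h1 h3 h5) (key1 ℓ₂ h2 (by omega) h6)
    tfae_finish

end Pool.Agent.Results.MP_ef641d_nt.OneResidualPrime
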